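import Pool.Agent.X234.WG.Main

/-!
# MP_030fd4_nt, Q1: the congruence holds modulo `p ^ 3`
-/

set_option autoImplicit false

namespace Pool.Agent.Results.MP_030fd4_nt.ModPThree

open Finset

/-- The truncated hypergeometric sum `3F2(1/2, -a, a+1; 1, 1; 1)_{p-1}`, for a `p`-adic integer
`a`, as a `p`-adic number. The rising factorial `(x)_k` is the value at `x` of Mathlib's
`ascPochhammer`. -/
noncomputable def F32 (p : ℕ) [Fact p.Prime] (a : ℤ_[p]) : ℚ_[p] :=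
  ∑ k ∈ range p, (ascPochhammer ℚ_[p] k).eval (1 / 2) *
    (ascPochhammer ℚ_[p] k).eval (-(a : ℚ_[p])) *
    (ascPochhammer ℚ_[p] k).eval ((a : ℚ_[p]) + 1) / (k.factorial : ℚ_[p]) ^ 3

/-- `G` is Morita's `p`-adic gamma function: a continuous function on `ℤ_[p]` whose value at a
positive integer `n` is `(-1)^n` times the product of the integers `0 < j < n` prime to `p`. -/
def IsMoritaGamma (p : ℕ) [Fact p.Prime] (G : ℤ_[p] → ℤ_[p]) : Prop :=
  Continuous G ∧ ∀ n : ℕ, 1 ≤ n →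
    G n = (-1) ^ n * ∏ j ∈ (Ioo 0 n).filter (fun j => ¬ p ∣ j), (j : ℤ_[p])

lemma cast_HK (p : ℕ) [Fact p.Prime] (h : ℤ_[p]) (k : ℕ) :
    ((X234.WG.HK h k : ℤ_[p]) : ℚ_[p]) = (ascPochhammer ℚ_[p] k).eval (h : ℚ_[p]) := by
  induction k with
  | zero => simp [X234.WG.HK]
  | succ k ih => rw [X234.WG.HK_succ, ascPochhammer_succ_eval, ← ih]; push_cast; ring

lemma cast_PK (p : ℕ) [Fact p.Prime] (a : ℤ_[p]) (k : ℕ) :
    ((X234.WG.PK a k : ℤ_[p]) : ℚ_[p]) = (ascPochhammer ℚ_[p] k).eval (-(a : ℚ_[p])) *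
      (ascPochhammer ℚ_[p] k).eval ((a : ℚ_[p]) + 1) := by
  induction k with
  | zero => simp [X234.WG.PK]
  | succ k ih =>
    rw [X234.WG.PK_succ, ascPochhammer_succ_eval, ascPochhammer_succ_eval]
    push_cast
    rw [ih]
    ring

lemma cast_I (p : ℕ) [Fact p.Prime] {k : ℕ} (hk : k < p) :
    ((X234.WG.I p k : ℤ_[p]) : ℚ_[p]) = 1 / (k.factorial : ℚ_[p]) := by
  have h := congrArg (fun x : ℤ_[p] => (x : ℚ_[p])) (X234.WG.fac_I p hk)
  push_cast at h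
  have hk0 : (k.factorial : ℚ_[p]) ≠ 0 := by exact_mod_cast (Nat.factorial_pos k).ne'
  field_simp
  linear_combination h

lemma cast_ff (p : ℕ) [Fact p.Prime] (h a : ℤ_[p]) (h2 : 2 * h = 1) :
    ((X234.WG.ff p h a : ℤ_[p]) : ℚ_[p]) = F32 p a := by
  have hh : (h : ℚ_[p]) = 1 / 2 := by
    have h3 := congrArg (fun x : ℤ_[p] => (x : ℚ_[p])) (show h + h = 1 by rw [← h2]; ring)
    push_cast at h3
    linear_combination h3 / 2
  unfold X234.WG.ff F32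
  rw [PadicInt.coe_sum]
  refine sum_congr rfl fun k hk => ?_
  unfold X234.WG.ck
  rw [PadicInt.coe_mul, PadicInt.coe_mul, PadicInt.coe_pow, cast_HK, cast_PK,
    cast_I p (mem_range.mp hk), hh]
  ring

/-- For every prime `p ≥ 5`, Morita's gamma function `Γ` exists and is unique, and for every
`p`-adic integer `a` whose least nonnegative residue `r` modulo `p` is even, with
`x = -a/2` and `y = (a+1)/2`, the truncated sum is congruent to
`(-1)^((p+1)/2) Γ(x)^2 Γ(y)^2` modulo `p ^ 3`. -/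
theorem result :
    ∀ (p : ℕ) [Fact p.Prime], 5 ≤ p →
      ∃ Γ : ℤ_[p] → ℤ_[p], IsMoritaGamma p Γ ∧ (∀ G', IsMoritaGamma p G' → G' = Γ) ∧
        ∀ (a : ℤ_[p]) (r : ℕ), r < p → (p : ℤ_[p]) ∣ a - (r : ℤ_[p]) → Even r →
          ∃ x y : ℤ_[p], 2 * x = -a ∧ 2 * y = a + 1 ∧
            ∃ z : ℤ_[p], F32 p a - (-1) ^ ((p + 1) / 2) * ((Γ x : ℤ_[p]) : ℚ_[p]) ^ 2 *
              ((Γ y : ℤ_[p]) : ℚ_[p]) ^ 2 = (p : ℚ_[p]) ^ 3 * (z : ℚ_[p]) := by
  intro p hp h5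
  obtain ⟨G, hG⟩ := H623R3.SW.exists_morita (p := p) (by omega)
  refine ⟨G, hG, fun G' hG' => H623R3.SW.morita_unique hG' hG, ?_⟩
  intro a r hr hdvd heven
  have hu := X234.SD.isUnit_cast p (i := 1) (by omega)
  obtain ⟨u, hu'⟩ := hu
  have h2 : (2 : ℤ_[p]) * ((u⁻¹ : ℤ_[p]ˣ) : ℤ_[p]) = 1 := by
    have h4 : (2 : ℤ_[p]) = (u : ℤ_[p]) := by rw [hu']; norm_num
    rw [h4, Units.mul_inv]
  generalize ((u⁻¹ : ℤ_[p]ˣ) : ℤ_[p]) = h at h2
  obtain ⟨m, hm⟩ := hp.out.odd_of_ne_two (by omega)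
  obtain ⟨n, hn⟩ := heven
  obtain ⟨t, ht⟩ := hdvd
  have ha : a = ((2 * n : ℕ) : ℤ_[p]) + p * t := by
    have : r = 2 * n := by omega
    rw [← this]
    linear_combination ht
  obtain ⟨z, hz⟩ := X234.WG.main (p := p) (by omega) hG h h2 m n hm (by omega) t
  refine ⟨-(h * a), h * (a + 1), by linear_combination (-a) * h2,
    by linear_combination (a + 1) * h2, z, ?_⟩
  rw [← ha] at hz
  have hz' := congrArg (fun x : ℤ_[p] => (x : ℚ_[p])) hz
  unfold X234.WG.RR at hz'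
  rw [show (p + 1) / 2 = m + 1 by omega, ← cast_ff p h a h2]
  push_cast at hz' ⊢
  exact hz'

end Pool.Agent.Results.MP_030fd4_nt.ModPThree
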